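import Mathlib
import Pool.Agent.H90.D6.Assemble
import Pool.Agent.H90.D6.PropC

/-!
# `D_6` has positive lower density

The set `D_6` of the problem of Erdos and Graham on square products of factorials contains a
positive proportion of the integers.
-/

open Finset Filter

namespace Pool.Agent.Results.MP_70e45f_nt.LinearDensityD6

/-- `F k` is the set of positive integers `m` for which there are `1 ≤ r ≤ k` and integers
`m = a 1 > a 2 > ... > a r ≥ 1` such that `(a 1)! (a 2)! ... (a r)!` is a perfect square. -/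
def F (k : ℕ) : Set ℕ :=
  {m | ∃ r : ℕ, 1 ≤ r ∧ r ≤ k ∧ ∃ a : ℕ → ℕ, a 1 = m ∧
    (∀ i : ℕ, 1 ≤ i → i < r → a (i + 1) < a i) ∧ 1 ≤ a r ∧
    IsSquare (∏ i ∈ Finset.Icc 1 r, (a i).factorial)}

/-- `D k = F k \ F (k - 1)`. -/
def D (k : ℕ) : Set ℕ := F k \ F (k - 1)

/-- `Dcount k n` is the number of elements of `D k` that are at most `n`. -/
noncomputable def Dcount (k n : ℕ) : ℕ := Set.ncard {m : ℕ | m ∈ D k ∧ m ≤ n}

theorem mem_F6 {A x m : ℕ} (h : D6.InM A x m) : m ∈ F 6 := by
  obtain ⟨hx, hmx, k, p, rfl, hp, hG, hk, hk100⟩ := h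
  have hpk : k + 1 < p := by
    by_contra hcon
    push Not at hcon
    have h1 : k * p ≤ k * (k + 1) := Nat.mul_le_mul_left _ hcon
    have h2 : k ^ 4 ≤ k ^ 100 := Nat.pow_le_pow_right (by omega) (by norm_num)
    have h3 : 2 * (k * (k + 1)) ≤ k ^ 4 := by
      have e : k ^ 4 = (k * k) * (k * k) := by ring
      have h4 : 4 ≤ k * k := Nat.mul_le_mul hk hk
      have h5 : k + 1 ≤ k * k := by nlinarith
      rw [e]
      nlinarith
    omega
  refine ⟨6, by norm_num, le_rfl, fun i => if i = 1 then k * p else if i = 2 then k * p - 1 else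
    if i = 3 then p else if i = 4 then p - 1 else if i = 5 then k else k - 1, ?_, ?_, ?_, ?_⟩
  · simp
  · have h1 : 2 * p ≤ k * p := Nat.mul_le_mul_right _ hk
    intro i hi1 hi2
    interval_cases i <;> simp <;> omega
  · simp
    omega
  · obtain ⟨k', rfl⟩ : ∃ k', k = k' + 1 := ⟨k - 1, by omega⟩
    obtain ⟨p', rfl⟩ : ∃ p', p = p' + 1 := ⟨p - 1, by omega⟩
    have hkp : 0 < (k' + 1) * (p' + 1) := Nat.mul_pos (by omega) (by omega)
    obtain ⟨n, hn⟩ : ∃ n, (k' + 1) * (p' + 1) = n + 1 := ⟨(k' + 1) * (p' + 1) - 1, by omega⟩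
    simp only [hn]
    refine ⟨(n + 1) * n.factorial * p'.factorial * k'.factorial, ?_⟩
    rw [Finset.prod_Icc_succ_top (by norm_num), Finset.prod_Icc_succ_top (by norm_num),
      Finset.prod_Icc_succ_top (by norm_num), Finset.prod_Icc_succ_top (by norm_num),
      Finset.prod_Icc_succ_top (by norm_num), Finset.Icc_self, Finset.prod_singleton]
    simp only [Nat.reduceAdd, Nat.reduceEqDiff, if_true, if_false, Nat.add_sub_cancel,
      Nat.factorial_succ]
    rw [show (n + 1) * n.factorial * n.factorial * ((p' + 1) * p'.factorial) * p'.factorial *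
      ((k' + 1) * k'.factorial) * k'.factorial = (n + 1) * ((k' + 1) * (p' + 1)) *
        (n.factorial * n.factorial) * (p'.factorial * p'.factorial) *
        (k'.factorial * k'.factorial) by ring, hn]
    ring

theorem not_mem_F5 {m : ℕ} (h : ¬ ∃ b c d e, D6.Rep m b c d e) : m ∉ F 5 := by
  rintro ⟨r, hr1, hr5, a, rfl, hdec, hpos, hsq⟩
  apply h
  interval_cases r
  · refine ⟨0, 0, 0, 0, by omega, le_rfl, le_rfl, le_rfl, ?_⟩
    rw [Finset.Icc_self, Finset.prod_singleton] at hsq
    simpa using hsq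
  · have h1 := hdec 1 (by norm_num) (by norm_num)
    refine ⟨a 2, 0, 0, 0, h1, by omega, le_rfl, le_rfl, ?_⟩
    rw [Finset.prod_Icc_succ_top (by norm_num), Finset.Icc_self, Finset.prod_singleton] at hsq
    simpa using hsq
  · have h1 := hdec 1 (by norm_num) (by norm_num)
    have h2 := hdec 2 (by norm_num) (by norm_num)
    refine ⟨a 2, a 3, 0, 0, h1, h2.le, by omega, le_rfl, ?_⟩
    rw [Finset.prod_Icc_succ_top (by norm_num), Finset.prod_Icc_succ_top (by norm_num),
      Finset.Icc_self, Finset.prod_singleton] at hsq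
    simpa using hsq
  · have h1 := hdec 1 (by norm_num) (by norm_num)
    have h2 := hdec 2 (by norm_num) (by norm_num)
    have h3 := hdec 3 (by norm_num) (by norm_num)
    refine ⟨a 2, a 3, a 4, 0, h1, h2.le, h3.le, by omega, ?_⟩
    rw [Finset.prod_Icc_succ_top (by norm_num), Finset.prod_Icc_succ_top (by norm_num),
      Finset.prod_Icc_succ_top (by norm_num), Finset.Icc_self, Finset.prod_singleton] at hsq
    simpa using hsq
  · have h1 := hdec 1 (by norm_num) (by norm_num)
    have h2 := hdec 2 (by norm_num) (by norm_num)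
    have h3 := hdec 3 (by norm_num) (by norm_num)
    have h4 := hdec 4 (by norm_num) (by norm_num)
    refine ⟨a 2, a 3, a 4, a 5, h1, h2.le, h3.le, h4.le, ?_⟩
    rw [Finset.prod_Icc_succ_top (by norm_num), Finset.prod_Icc_succ_top (by norm_num),
      Finset.prod_Icc_succ_top (by norm_num), Finset.prod_Icc_succ_top (by norm_num),
      Finset.Icc_self, Finset.prod_singleton] at hsq
    exact hsq

/-- `D_6` has positive lower density: there is `c > 0` with `D_6(n) > c n` for all large `n`. -/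
theorem result : ∃ c : ℝ, 0 < c ∧ ∃ N : ℕ, ∀ n : ℕ, N ≤ n → c * n < Dcount 6 n := by
  obtain ⟨c, hc, A, hA⟩ := D6.NR_card D6.propC
  obtain ⟨N, hN⟩ := Filter.eventually_atTop.mp hA
  refine ⟨c, hc, N, ?_⟩
  intro n hn
  refine lt_of_lt_of_le (hN n hn) ?_
  have hfin : Set.Finite {m : ℕ | m ∈ D 6 ∧ m ≤ n} :=
    (Set.finite_Iic n).subset (fun m hm => hm.2)
  have hsub : ((D6.NR A n : Finset ℕ) : Set ℕ) ⊆ {m : ℕ | m ∈ D 6 ∧ m ≤ n} := by
    intro m hm
    rw [Finset.mem_coe] at hm
    obtain ⟨h1, h2, h3⟩ := D6.mem_NR hm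
    exact ⟨⟨mem_F6 h1, not_mem_F5 h3⟩, h2⟩
  have h1 := Set.ncard_le_ncard hsub hfin
  rw [Set.ncard_coe_finset] at h1
  rw [Dcount]
  exact_mod_cast h1

end Pool.Agent.Results.MP_70e45f_nt.LinearDensityD6
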